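import Mathlib
import Pool.Agent.Helper677.QSD

/-!
# Exceptional triangle-free quasi-symmetric designs: `k / y` has no dominating prime power factor
-/

set_option autoImplicit false

open Finset

namespace Pool.Agent.Results.MP_a53b92_co.RatioBound

open Pool.Agent.Helper677.QSD (Exceptional params range_bound pos_part v_bound
  case_two case_one y_dvd_k)

/-- `b ≤ 12 a ^ 6`. -/
lemma bound_b {m θ lam y a b t : ℤ} (hm : 3 ≤ m) (hmy : m ≤ y) (hθ : 1 ≤ θ) (hlam : 1 ≤ lam)
    (h1 : (y - 1) * (m + θ) = (m - 1) * (lam - 1))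
    (h2 : lam * m * (θ - m + 2) = (m - 1) * θ * (θ + 1))
    (ha : 1 ≤ a) (hb : 1 ≤ b) (hab : m = a * b) (ht : θ + 1 = b * t) (haθ : a ∣ θ) :
    b ≤ 12 * a ^ 6 := by
  have hr := range_bound hm hmy hθ hlam h1 h2
  have hp := pos_part hm hθ hlam h2
  have hb0 : (0 : ℤ) < b := by omega
  have ha0 : (0 : ℤ) < a := by omega
  have hm0 : (0 : ℤ) < m := by omega
  have ht0 : 1 ≤ t := by
    by_contra h
    have : t ≤ 0 := by omega
    nlinarith
  have hθ' : θ = b * t - 1 := by omega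
  -- `t ≥ a`
  have hta : a ≤ t := by
    by_contra h
    have h3 : t + 1 ≤ a := by omega
    have h4 : b * (t + 1) ≤ b * a := mul_le_mul_of_nonneg_left h3 hb0.le
    nlinarith
  have hta' : a < t ∨ (a = 1 ∧ t = 1) := by
    rcases hta.lt_or_eq with h | h
    · exact Or.inl h
    · right
      have h3 : θ = m - 1 := by rw [hθ', hab, ← h]; ring
      have h4 : a ∣ 1 := by
        have h5 : a ∣ m := ⟨b, hab⟩
        have h6 : a ∣ m - θ := dvd_sub h5 haθ
        rwa [h3, sub_sub_cancel] at h6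
      have h7 := Int.le_of_dvd one_pos h4
      constructor <;> omega
  rcases hta' with hta' | ⟨rfl, rfl⟩
  swap
  · exfalso
    exact case_two hm hmy hθ hlam h1 h2 (t := 1) (by rw [ht, hab]; ring)
  -- the integer `s`
  set s := a * lam - (m - 1) * (t + a) + 2 * a with hs
  have hlamD : lam * a * (b * (t - a) + 1) = (m - 1) * (b * t - 1) * t := by
    apply mul_left_cancel₀ hb0.ne'
    rw [hθ', hab] at h2
    rw [hab]
    linear_combination h2
  have hsD : s * (b * (t - a) + 1) = a ^ 3 * b ^ 2 - 4 * a ^ 2 * b + 3 * a + 2 * t := by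
    rw [hs, hab]
    rw [hab] at hlamD
    linear_combination hlamD
  set j := a ^ 3 * b - 4 * a ^ 2 - s * (t - a) with hj
  have hsj : s = 3 * a + 2 * t + b * j := by
    rw [hj]; linear_combination hsD
  have hjj : b * (a ^ 3 - j * (t - a)) = j + 4 * a ^ 2 + (3 * a + 2 * t) * (t - a) := by
    have : j = a ^ 3 * b - 4 * a ^ 2 - s * (t - a) := hj
    rw [hsj] at this
    linear_combination -this
  -- the relation for `u = y - m`
  have hu : (y - m) * (m * (a + t) - a) = (m - 1) * (t + b * j) := by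
    have e1 : a * (m + θ) = m * (a + t) - a := by rw [hθ', hab]; ring
    have e2 : a * (lam - 1) = (m - 1) * (t + a) + 2 * t + b * j := by
      have : s = a * lam - (m - 1) * (t + a) + 2 * a := hs
      rw [hsj] at this
      linear_combination -this
    linear_combination a * h1 - (y - 1) * e1 + (m - 1) * e2
  have hpos : 0 < m * (a + t) - a := by
    have h6 : 0 < (m - 1) * (a + t) := mul_pos (by omega) (by omega)
    linarith [(by ring : m * (a + t) - a = (m - 1) * (a + t) + t)]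
  rcases lt_trichotomy j 0 with hj0 | hj0 | hj0
  · -- negative `j`
    have h3 : 0 ≤ t + b * j := by
      by_contra h
      have h4 : t + b * j ≤ -1 := by omega
      have h5 : (m - 1) * (t + b * j) < 0 := mul_neg_of_pos_of_neg (by omega) (by omega)
      have h6 : 0 ≤ (y - m) * (m * (a + t) - a) := mul_nonneg (by omega) hpos.le
      linarith
    have h4 : b ≤ t := by
      have : b * j ≤ b * (-1) := mul_le_mul_of_nonneg_left (by omega) hb0.le
      linarith
    have h5 : t ^ 2 ≤ a ^ 3 * b := by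
      have h6 : b ^ 2 * t ^ 2 ≤ b ^ 2 * (a ^ 3 * b) := by
        have h7 : (b * t - 1) ^ 2 + (2 * m + 1) * (b * t - 1) ≤ m * (m - 2) * (m + 1) := by
          rw [hθ'] at hr; exact hr
        have h8 : 2 ≤ b * t := by omega
        have h9 : m ^ 3 = b ^ 2 * (a ^ 3 * b) := by rw [hab]; ring
        rw [← h9]
        have h10 : b ^ 2 * t ^ 2 = (b * t) ^ 2 := by ring
        rw [h10]
        generalize b * t = X at h7 h8
        have h11 : 0 ≤ (2 * m - 1) * X := mul_nonneg (by omega) (by omega)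
        have h12 : 0 ≤ m ^ 2 := sq_nonneg m
        linarith [h7, h11, h12, (by ring : (X - 1) ^ 2 + (2 * m + 1) * (X - 1) =
          X ^ 2 + (2 * m - 1) * X - 2 * m),
          (by ring : m * (m - 2) * (m + 1) = m ^ 3 - m ^ 2 - 2 * m)]
      exact le_of_mul_le_mul_left h6 (by positivity)
    have h6 : b * b ≤ a ^ 3 * b := by
      have h6' : b * b ≤ t * t := mul_le_mul h4 h4 hb0.le (by omega)
      have h6'' : t * t = t ^ 2 := by ring
      linarith
    have h7 : b ≤ a ^ 3 := le_of_mul_le_mul_right h6 hb0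
    have h8 : a ^ 3 ≤ a ^ 6 := pow_le_pow_right₀ ha (by norm_num)
    have h9 : 0 < a ^ 6 := by positivity
    linarith
  · -- `j = 0`
    exfalso
    rw [hj0, mul_zero, add_zero] at hu
    have h3 : 0 < (m - 1) * t := mul_pos (by omega) (by omega)
    have h4 : 1 ≤ y - m := by
      by_contra h
      have : y - m = 0 := by omega
      rw [this, zero_mul] at hu
      omega
    have h5 : 1 * (m * (a + t) - a) ≤ (y - m) * (m * (a + t) - a) :=
      mul_le_mul_of_nonneg_right h4 hpos.le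
    have h6 : 0 < (m - 1) * a := mul_pos (by omega) ha0
    linarith [(by ring : m * (a + t) - a = (m - 1) * t + (m - 1) * a + t)]
  · -- positive `j`
    have h3 : 1 ≤ t - a := by omega
    have h4 : 0 < j + 4 * a ^ 2 + (3 * a + 2 * t) * (t - a) := by positivity
    have h5 : 1 ≤ a ^ 3 - j * (t - a) := by
      by_contra h
      have h6 : a ^ 3 - j * (t - a) ≤ 0 := by omega
      have : b * (a ^ 3 - j * (t - a)) ≤ 0 := mul_nonpos_of_nonneg_of_nonpos hb0.le h6
      omega
    have h6 : b ≤ j + 4 * a ^ 2 + (3 * a + 2 * t) * (t - a) := by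
      rw [← hjj]
      have := mul_le_mul_of_nonneg_left h5 hb0.le
      linarith
    have h7 : j ≤ a ^ 3 := by
      have : j * 1 ≤ j * (t - a) := mul_le_mul_of_nonneg_left h3 (by omega)
      linarith
    have h8 : t - a ≤ a ^ 3 := by
      have : 1 * (t - a) ≤ j * (t - a) := mul_le_mul_of_nonneg_right (by omega) (by omega)
      linarith
    have h9 : (3 * a + 2 * t) * (t - a) ≤ (5 * a + 2 * a ^ 3) * a ^ 3 := by
      have e1 : 3 * a + 2 * t ≤ 5 * a + 2 * a ^ 3 := by linarith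
      exact mul_le_mul e1 h8 (by omega) (by positivity)
    have e3 : a ^ 3 ≤ a ^ 6 := pow_le_pow_right₀ ha (by norm_num)
    have e2 : a ^ 2 ≤ a ^ 6 := pow_le_pow_right₀ ha (by norm_num)
    have e4 : a ^ 4 ≤ a ^ 6 := pow_le_pow_right₀ ha (by norm_num)
    have e5 : (5 * a + 2 * a ^ 3) * a ^ 3 = 5 * a ^ 4 + 2 * a ^ 6 := by ring
    linarith

/-- `a ≤ 4 b ^ 3`. -/
lemma bound_a {m θ lam y a b t : ℤ} (hm : 3 ≤ m) (hmy : m ≤ y) (hθ : 1 ≤ θ) (hlam : 1 ≤ lam)
    (h1 : (y - 1) * (m + θ) = (m - 1) * (lam - 1))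
    (h2 : lam * m * (θ - m + 2) = (m - 1) * θ * (θ + 1))
    (ha : 1 ≤ a) (hb : 1 ≤ b) (hab : m = a * b) (ht : θ + 1 = b * t) (haθ : a ∣ θ) :
    a ≤ 4 * b ^ 3 := by
  have hr := range_bound hm hmy hθ hlam h1 h2
  have hb0 : (0 : ℤ) < b := by omega
  have ha0 : (0 : ℤ) < a := by omega
  have hm0 : (0 : ℤ) < m := by omega
  obtain ⟨σ, hσ⟩ := haθ
  have hσ1 : 1 ≤ σ := by
    by_contra h
    have : σ ≤ 0 := by omega
    nlinarith
  have h3 : lam * (a * σ - a * b + 2) = (a * b - 1) * σ * t := by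
    have hab0 : a * b ≠ 0 := by positivity
    apply mul_left_cancel₀ hab0
    have h2' : lam * (a * b) * (a * σ - a * b + 2) = (a * b - 1) * (a * σ) * (b * t) := by
      rw [← ht, ← hab, ← hσ]; exact h2
    linear_combination h2'
  have h4 : a ∣ lam - 1 := by
    refine ⟨b * (lam - 1) - (y - 1) * (b + σ), ?_⟩
    have h1' : (y - 1) * (a * b + a * σ) = (a * b - 1) * (lam - 1) := by
      rw [← hab, ← hσ]; exact h1
    linear_combination h1'
  obtain ⟨e, he⟩ := h4
  have h5 : a ∣ σ + 2 * b := by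
    -- `2 lam + σ t ≡ 0`, `lam ≡ 1`, `b t ≡ 1`
    have h6 : b * t = a * σ + 1 := by rw [← hσ]; omega
    have hl : lam = 1 + a * e := by linarith
    refine ⟨b * σ * (a * σ + 1) - σ * σ - b * (1 + a * e) * (σ - b) - 2 * b * e, ?_⟩
    rw [hl] at h3
    linear_combination b * h3 + (a * b - 1) * σ * h6
  have h6 : a ≤ σ + 2 * b := Int.le_of_dvd (by omega) h5
  have h7 : σ ^ 2 ≤ a * b ^ 3 := by
    have h8 : a ^ 2 * σ ^ 2 ≤ a ^ 2 * (a * b ^ 3) := by
      have h9 : m ^ 3 = a ^ 2 * (a * b ^ 3) := by rw [hab]; ring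
      have h10 : θ ^ 2 = a ^ 2 * σ ^ 2 := by rw [hσ]; ring
      rw [← h9, ← h10]
      nlinarith
    exact le_of_mul_le_mul_left h8 (by positivity)
  have hb3 : b ≤ b ^ 3 := le_self_pow₀ hb (by norm_num)
  by_contra hcon
  push Not at hcon
  have h8 : a < 2 * σ := by linarith
  have h9 : a * a < 4 * (a * b ^ 3) := by nlinarith
  have h10 : a < 4 * b ^ 3 := by
    have : a * a < a * (4 * b ^ 3) := by linarith
    exact lt_of_mul_lt_mul_left this ha0.le
  omega

lemma split (M T : ℕ) (hM : 0 < M) (h : M ∣ T * (T + 1)) :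
    ∃ a b : ℕ, M = a * b ∧ a ∣ T ∧ b ∣ T + 1 ∧ 0 < a ∧ 0 < b := by
  obtain ⟨b, T', hco, hMb, hT⟩ := Nat.exists_coprime M T
  set g := Nat.gcd M T with hg
  have hg0 : 0 < g := Nat.gcd_pos_of_pos_left _ hM
  have hb0 : 0 < b := by
    rcases Nat.eq_zero_or_pos b with h0 | h0
    · rw [h0, zero_mul] at hMb; omega
    · exact h0
  refine ⟨g, b, by rw [mul_comm]; exact hMb, ⟨T', by rw [mul_comm]; exact hT⟩, ?_, hg0, hb0⟩
  have h1 : g * b ∣ g * (T' * (T + 1)) := by
    have h2 : g * b = M := by rw [mul_comm]; exact hMb.symm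
    have h3 : g * (T' * (T + 1)) = T * (T + 1) := by
      rw [← mul_assoc, mul_comm g T', ← hT]
    rw [h2, h3]; exact h
  have h4 : b ∣ T' * (T + 1) := (Nat.mul_dvd_mul_iff_left hg0).1 h1
  exact hco.dvd_of_dvd_mul_left h4

/-- The factorisation theorem. -/
theorem factorisation {v k lam y : ℕ} {B : Finset (Finset (Fin v))}
    (E : Exceptional v k lam y B) :
    ∃ a b : ℕ, k / y = a * b ∧ Nat.Coprime a b ∧ b ≤ 12 * a ^ 6 ∧ a ≤ 4 * b ^ 3 := by
  have hdvd : y ∣ k := by exact_mod_cast y_dvd_k E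
  obtain ⟨m, θ, hk, hm, hmy, hθ, hlam, h1, h2, h3⟩ := params E
  have hy : 0 < y := by have := E.two_le; omega
  have hM : ((k / y : ℕ) : ℤ) = m := by
    rw [Int.natCast_div, hk]
    have : (y : ℤ) ≠ 0 := by exact_mod_cast hy.ne'
    exact Int.mul_ediv_cancel_left m this
  set M := k / y with hMdef
  obtain ⟨T, hT⟩ : ∃ T : ℕ, (T : ℤ) = θ := ⟨θ.toNat, Int.toNat_of_nonneg (by omega)⟩
  have hd : (m : ℤ) ∣ θ * (θ + 1) := by
    have h4 : m ∣ (m - 1) * (θ * (θ + 1)) := ⟨lam * (θ - m + 2), by linear_combination -h2⟩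
    have h5 : IsCoprime m (m - 1) := ⟨1, -1, by ring⟩
    exact h5.dvd_of_dvd_mul_left h4
  rw [← hM, ← hT] at hd
  have hd' : M ∣ T * (T + 1) := by exact_mod_cast hd
  have hM0 : 0 < M := by omega
  obtain ⟨a, b, hab, haT, hbT, ha0, hb0⟩ := split M T hM0 hd'
  obtain ⟨t, ht⟩ := hbT
  have hab' : m = (a : ℤ) * b := by rw [← hM, hab]; push_cast; ring
  have ht' : θ + 1 = (b : ℤ) * t := by rw [← hT]; exact_mod_cast ht
  have haθ : (a : ℤ) ∣ θ := by rw [← hT]; exact_mod_cast haT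
  have ha1 : (1 : ℤ) ≤ a := by exact_mod_cast ha0
  have hb1 : (1 : ℤ) ≤ b := by exact_mod_cast hb0
  refine ⟨a, b, hab, ?_, ?_, ?_⟩
  · have h4 : Nat.Coprime T (T + 1) := by simp
    exact Nat.Coprime.coprime_dvd_left haT (Nat.Coprime.coprime_dvd_right ⟨t, ht⟩ h4)
  · exact_mod_cast bound_b hm hmy hθ hlam h1 h2 ha1 hb1 hab' ht' haθ
  · exact_mod_cast bound_a hm hmy hθ hlam h1 h2 ha1 hb1 hab' ht' haθ

/-- For every exceptional triangle-free quasi-symmetric design, with `m = k / y`: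
(1) `y ∣ k`, `m` is not a prime power, and `v ≤ 5 m ^ 6`;
(2) `m = a b` with `a, b` coprime, `b ≤ 12 a ^ 6` and `a ≤ 4 b ^ 3`;
(3) if `m = n q` with `q` a prime power coprime to `n`, then `q ≤ 12 n ^ 6`, so `v` is bounded in
terms of `n` alone. -/
theorem result :
    (∀ (v k lam y : ℕ) (B : Finset (Finset (Fin v))), Exceptional v k lam y B →
      y ∣ k ∧ ¬ IsPrimePow (k / y) ∧ v ≤ 5 * (k / y) ^ 6) ∧
    (∀ (v k lam y : ℕ) (B : Finset (Finset (Fin v))), Exceptional v k lam y B →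
      ∃ a b : ℕ, k / y = a * b ∧ Nat.Coprime a b ∧ b ≤ 12 * a ^ 6 ∧ a ≤ 4 * b ^ 3) ∧
    (∀ (v k lam y : ℕ) (B : Finset (Finset (Fin v))), Exceptional v k lam y B →
      ∀ n q : ℕ, IsPrimePow q → Nat.Coprime n q → k / y = n * q →
      q ≤ 12 * n ^ 6 ∧ v ≤ 5 * (12 * n ^ 7) ^ 6) := by
  refine ⟨fun v k lam y B E => Pool.Agent.Helper677.QSD.primePower_result v k lam y B E,
    fun v k lam y B E => factorisation E, ?_⟩
  intro v k lam y B E n q hq hnq hm
  have hv := (Pool.Agent.Helper677.QSD.primePower_result v k lam y B E).2.2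
  obtain ⟨a, b, hab, hco, hb, ha⟩ := factorisation E
  have hq0 : 0 < q := hq.pos
  have hm0 : 0 < k / y := by
    obtain ⟨m, θ, hk, hm3, -⟩ := params E
    have hy : 0 < y := by have := E.two_le; omega
    have hdvd : y ∣ k := by exact_mod_cast y_dvd_k E
    have hk0 : 0 < k := by have := E.lower; omega
    exact Nat.div_pos (Nat.le_of_dvd hk0 hdvd) hy
  have hn0 : 0 < n := by
    rcases Nat.eq_zero_or_pos n with h | h
    · rw [h, zero_mul] at hm; omega
    · exact h
  have ha0 : 0 < a := by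
    rcases Nat.eq_zero_or_pos a with h | h
    · rw [h, zero_mul] at hab; omega
    · exact h
  have hb0 : 0 < b := by
    rcases Nat.eq_zero_or_pos b with h | h
    · rw [h, mul_zero] at hab; omega
    · exact h
  have key : q ≤ 12 * n ^ 6 := by
    have h1 : q ∣ a * b := ⟨n, by rw [← hab, hm]; ring⟩
    rcases (hco.isPrimePow_dvd_mul hq).1 h1 with h | h
    · -- `q ∣ a`, so `b ∣ n`
      have h2 : Nat.Coprime b q := Nat.Coprime.coprime_dvd_right h hco.symm
      have h3 : b ∣ n * q := ⟨a, by rw [← hm, hab]; ring⟩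
      have h4 : b ≤ n := Nat.le_of_dvd hn0 (h2.dvd_of_dvd_mul_right h3)
      have h5 : q ≤ a := Nat.le_of_dvd ha0 h
      have h6 : b ^ 3 ≤ n ^ 3 := Nat.pow_le_pow_left h4 3
      have h7 : n ^ 3 ≤ n ^ 6 := Nat.pow_le_pow_right hn0 (by norm_num)
      omega
    · have h2 : Nat.Coprime a q := Nat.Coprime.coprime_dvd_right h hco
      have h3 : a ∣ n * q := ⟨b, by rw [← hm, hab]⟩
      have h4 : a ≤ n := Nat.le_of_dvd hn0 (h2.dvd_of_dvd_mul_right h3)
      have h5 : q ≤ b := Nat.le_of_dvd hb0 h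
      have h6 : a ^ 6 ≤ n ^ 6 := Nat.pow_le_pow_left h4 6
      omega
  refine ⟨key, hv.trans ?_⟩
  have h8 : k / y ≤ 12 * n ^ 7 := by
    rw [hm]
    calc n * q ≤ n * (12 * n ^ 6) := Nat.mul_le_mul_left n key
      _ = 12 * n ^ 7 := by ring
  exact Nat.mul_le_mul_left 5 (Nat.pow_le_pow_left h8 6)

end Pool.Agent.Results.MP_a53b92_co.RatioBound
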